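import Pool.Agent.Lib.MP_bc13a4_co.Cyc.Few

set_option autoImplicit false

namespace Pool.Agent.Results.MP_bc13a4_co.CycleMinusEdge

open Finset

/-- The five-tuple `f` is a copy in `H` of the tight five-cycle minus an edge (`C5^-`): five
distinct vertices `v₀, ..., v₄` such that `v₀v₁v₂`, `v₁v₂v₃`, `v₂v₃v₄`, `v₃v₄v₀` are edges. -/
def IsCopy {V : Type} [DecidableEq V] (H : Finset (Finset V)) (f : Fin 5 → V) : Prop :=
  Function.Injective f ∧ ({f 0, f 1, f 2} : Finset V) ∈ H ∧ ({f 1, f 2, f 3} : Finset V) ∈ H ∧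
    ({f 2, f 3, f 4} : Finset V) ∈ H ∧ ({f 3, f 4, f 0} : Finset V) ∈ H

/-- **2/9 is a jump for 3-graphs with few copies of the tight five-cycle minus an edge.**
For every `ε > 0` and every `m ≥ 60000` there is `n0` such that every 3-graph on `n > n0`
vertices with at least `(1/27 + ε) n^3` edges in which at most `(ε/50000) n^5` ordered
five-tuples of vertices are copies of `C5^-` has `m` vertices spanning at least
`(1/27 + 3/2000) m^3` edges. In particular Q1 of the problem holds with `c = 3/2000` for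
3-graphs without `C5^-`. -/
theorem result : ∀ ε : ℝ, 0 < ε → ∀ m : ℕ, 60000 ≤ m → ∃ n0 : ℕ, ∀ n : ℕ, n0 < n →
    ∀ H : Finset (Finset (Fin n)), (∀ e ∈ H, e.card = 3) →
      (1 / 27 + ε) * (n : ℝ) ^ 3 ≤ (H.card : ℝ) →
      (Nat.card {f : Fin 5 → Fin n // IsCopy H f} : ℝ) ≤ ε / 50000 * (n : ℝ) ^ 5 →
      ∃ S : Finset (Fin n), S.card = m ∧
        (1 / 27 + 3 / 2000) * (m : ℝ) ^ 3 ≤ ((H.filter (fun e => e ⊆ S)).card : ℝ) := by
  intro ε hε m hm
  obtain ⟨n0, h⟩ := Pool.Agent.Lib.MP_bc13a4_co.Cyc.q1C ε hε m hm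
  refine ⟨n0, fun n hn H hH hD hC => h n hn H hH hD ?_⟩
  classical
  rw [Nat.card_eq_fintype_card, Fintype.card_subtype] at hC
  refine le_trans (le_of_eq ?_) hC
  congr 2

end Pool.Agent.Results.MP_bc13a4_co.CycleMinusEdge
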