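import Pool.Agent.Lib.MP_bc13a4_co.Tri.Final

set_option autoImplicit false

namespace Pool.Agent.Results.MP_bc13a4_co.DirectedTriangles

open Finset

/-- The 3-graph of directed triangles of a binary relation `D` (a digraph, 2-cycles allowed): its
edges are the three-element sets `{u, v, w}` with `D u v`, `D v w` and `D w u`. -/
noncomputable def dirTriangles {V : Type} [Fintype V] [DecidableEq V] (D : V → V → Prop) :
    Finset (Finset V) := by
  classical
  exact Finset.univ.filter (fun e => e.card = 3 ∧ ∃ u v w, e = {u, v, w} ∧ D u v ∧ D v w ∧ D w u)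

/-- The Lagrangian polynomial `∑ x u * x v * x w` over the edges `{u,v,w}` of `H`
(each edge is counted six times among the ordered triples). -/
noncomputable def lagrangian {V : Type} [Fintype V] [DecidableEq V] (H : Finset (Finset V))
    (x : V → ℝ) : ℝ :=
  (∑ u, ∑ v, ∑ w, if ({u, v, w} : Finset V) ∈ H then x u * x v * x w else 0) / 6

/-- Probability weights on the vertex set. -/
def IsWeight {V : Type} [Fintype V] (x : V → ℝ) : Prop := (∀ v, 0 ≤ x v) ∧ ∑ v, x v = 1

/-- **2/9 is a jump for 3-graphs of directed triangles.**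
(1) The Lagrangian of the 3-graph of directed triangles of a finite digraph never lies strictly
between `1/27` and `1/27 + 3/2000`.
(2) Q1 of the problem holds for these 3-graphs with `c = 3/2000`: for every `ε > 0` and every
`m ≥ 60000` there is `n0` such that for every digraph `D` on `n > n0` vertices with at least
`(1/27 + ε) n^3` directed triangles some `m` vertices span at least `(1/27 + 3/2000) m^3` of
them. -/
theorem result :
    (∀ (V : Type) [Fintype V] [DecidableEq V] (D : V → V → Prop),
      (∀ x : V → ℝ, IsWeight x → lagrangian (dirTriangles D) x ≤ 1 / 27) ∨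
        ∃ x : V → ℝ, IsWeight x ∧ 1 / 27 + 3 / 2000 ≤ lagrangian (dirTriangles D) x) ∧
    (∀ ε : ℝ, 0 < ε → ∀ m : ℕ, 60000 ≤ m → ∃ n0 : ℕ, ∀ n : ℕ, n0 < n →
      ∀ D : Fin n → Fin n → Prop,
        (1 / 27 + ε) * (n : ℝ) ^ 3 ≤ ((dirTriangles D).card : ℝ) →
        ∃ S : Finset (Fin n), S.card = m ∧
          (1 / 27 + 3 / 2000) * (m : ℝ) ^ 3
            ≤ (((dirTriangles D).filter (fun e => e ⊆ S)).card : ℝ)) := by
  refine ⟨?_, ?_⟩
  · intro V _ _ D
    exact Pool.Agent.Lib.MP_bc13a4_co.Tri.gap D
  · exact Pool.Agent.Lib.MP_bc13a4_co.Tri.q1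

end Pool.Agent.Results.MP_bc13a4_co.DirectedTriangles
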