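import Pool.Agent.Lib.BC13.Final

set_option autoImplicit false

namespace Pool.Agent.Results.MP_bc13a4_co.FiniteSupport

open Finset Pool.Agent.BC13

/-- For every `0 ≤ ρ < 4/81` (for instance `ρ = 1/27`) and every `k` there are `δ, c > 0` such
that the following holds for every finite 3-graph `H` and every weighting `x` maximizing its
Lagrangian polynomial. Let `y` be a weighting on at most `k` vertices of the support of `x` such
that the links of these vertices have `y`-weight at least `3ρ - δ`, and let `τ` be the `x`-weight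
of the vertices whose link has `y`-weight less than `3ρ - δ`. Then `λ(H) ≤ ρ + τ/3` or
`λ(H) ≥ ρ + c`. -/
theorem result (ρ : ℝ) (hρ : 0 ≤ ρ) (hρ2 : ρ < 4 / 81) (k : ℕ) :
    ∃ δ : ℝ, 0 < δ ∧ ∃ c : ℝ, 0 < c ∧
    ∀ (V : Type) [Fintype V] [DecidableEq V] (H : Finset (Finset V)) (x y : V → ℝ),
      (∀ e ∈ H, e.card = 3) → IsWeight x → (∀ x' : V → ℝ, IsWeight x' → lagr H x' ≤ lagr H x) →
      IsWeight y → (∀ v, y v ≠ 0 → x v ≠ 0) → (univ.filter (fun v => y v ≠ 0)).card ≤ k →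
      (∀ v, y v ≠ 0 → 3 * ρ - δ ≤ link H y v) →
      lagr H x ≤ ρ + (∑ v ∈ univ.filter (fun v => link H y v < 3 * ρ - δ), x v) / 3 ∨
        ρ + c ≤ lagr H x := by
  obtain ⟨δ, hδ, c, hc, h⟩ := dichotomy ρ hρ hρ2 k
  exact ⟨δ, hδ, c, hc, fun V _ _ H x y h1 h2 h3 h4 h5 h6 h7 =>
    h V H x y δ h1 h2 h3 h4 h5 h6 le_rfl h7⟩

end Pool.Agent.Results.MP_bc13a4_co.FiniteSupport
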